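import Pool.Agent.X37.Ext3

set_option autoImplicit false

namespace Pool.Agent.X37.Ext

/-- Levels at the right end. -/
def R (c : ℕ) : ℤ :=
  if c = 28 then 8 else if c = 27 then -8 else if c = 26 then -7 else if c = 21 then 6
  else if c = 15 then -2 else Lr c

theorem L_right (t c : ℕ) (h1 : 14 ≤ c) (h2 : c ≤ 28) : L t (16 * t + c) = R c := by
  have h := L_spec t (16 * t + c)
  have h' := Lr_spec (16 * t + c)
  have e : R c = R c := rfl
  interval_cases c <;> rw [show R _ = _ from by unfold R Lr; rfl] <;> simp <;> omega

variable {t : ℕ} {w : ℕ → ℚ}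

theorem right_cmp (hw : Good t w) {j k : ℕ} (hj : 14 ≤ j ∧ j ≤ 28) (hk : 14 ≤ k ∧ k ≤ 28)
    (h : R j < R k) : F t w (16 * t + j) < F t w (16 * t + k) :=
  F_lt hw (by omega) (by omega)
    (by rw [L_right t j hj.1 hj.2, L_right t k hk.1 hk.2]; exact h)

theorem hasSq_last (hw : Good t w) (x : ℚ) (hx : ∀ j < 16 * t + 29, x ≠ F t w j) :
    HasSq (ins (F t w) (16 * t + 29) x) (16 * t + 30) := by
  have g0 : ins (F t w) (16 * t + 29) x (16 * t + 29) = x := ins_eq _ _ _
  have g : ∀ j < 29, ins (F t w) (16 * t + 29) x (16 * t + j) = F t w (16 * t + j) :=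
    fun j hj => ins_lt _ _ (by omega)
  rcases lt_or_gt_of_ne (hx (16 * t + 28) (by omega)) with h | h
  · refine hasSq_two (16 * t + 26) (by omega) (Or.inr ?_)
    show ins (F t w) (16 * t + 29) x (16 * t + 27) < ins (F t w) (16 * t + 29) x (16 * t + 26) ∧
      ins (F t w) (16 * t + 29) x (16 * t + 29) < ins (F t w) (16 * t + 29) x (16 * t + 28)
    rw [g0, g _ (by norm_num), g _ (by norm_num), g _ (by norm_num)]
    exact ⟨right_cmp hw (by norm_num) (by norm_num) (by decide), h⟩
  · refine hasSq_of (16 * t + 22) 4 (by norm_num) (by omega) [1, 0, 2, 3] (by decide) ?_ ?_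
    · show [ins (F t w) (16 * t + 29) x (16 * t + 23), ins (F t w) (16 * t + 29) x (16 * t + 22),
        ins (F t w) (16 * t + 29) x (16 * t + 24),
        ins (F t w) (16 * t + 29) x (16 * t + 25)].Pairwise (· < ·)
      rw [g _ (by norm_num), g _ (by norm_num), g _ (by norm_num), g _ (by norm_num)]
      exact chain4 ⟨right_cmp hw (by norm_num) (by norm_num) (by decide),
        right_cmp hw (by norm_num) (by norm_num) (by decide),
        right_cmp hw (by norm_num) (by norm_num) (by decide)⟩
    · show [ins (F t w) (16 * t + 29) x (16 * t + 27), ins (F t w) (16 * t + 29) x (16 * t + 26),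
        ins (F t w) (16 * t + 29) x (16 * t + 28),
        ins (F t w) (16 * t + 29) x (16 * t + 29)].Pairwise (· < ·)
      rw [g0, g _ (by norm_num), g _ (by norm_num), g _ (by norm_num)]
      exact chain4 ⟨right_cmp hw (by norm_num) (by norm_num) (by decide),
        right_cmp hw (by norm_num) (by norm_num) (by decide), h⟩

theorem hasSq_last1 (hw : Good t w) (x : ℚ) (hx : ∀ j < 16 * t + 29, x ≠ F t w j) :
    HasSq (ins (F t w) (16 * t + 28) x) (16 * t + 30) := by
  have g0 : ins (F t w) (16 * t + 28) x (16 * t + 28) = x := ins_eq _ _ _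
  have g1 : ins (F t w) (16 * t + 28) x (16 * t + 29) = F t w (16 * t + 28) :=
    ins_gt _ _ (by omega)
  have g : ∀ j < 28, ins (F t w) (16 * t + 28) x (16 * t + j) = F t w (16 * t + j) :=
    fun j hj => ins_lt _ _ (by omega)
  rcases lt_or_gt_of_ne (hx (16 * t + 28) (by omega)) with h | h
  · rcases lt_or_gt_of_ne (hx (16 * t + 27) (by omega)) with h1 | h1
    · refine hasSq_two (16 * t + 25) (by omega) (Or.inr ?_)
      show ins (F t w) (16 * t + 28) x (16 * t + 26) <
          ins (F t w) (16 * t + 28) x (16 * t + 25) ∧
        ins (F t w) (16 * t + 28) x (16 * t + 28) < ins (F t w) (16 * t + 28) x (16 * t + 27)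
      rw [g0, g _ (by norm_num), g _ (by norm_num), g _ (by norm_num)]
      exact ⟨right_cmp hw (by norm_num) (by norm_num) (by decide), h1⟩
    · rcases lt_or_gt_of_ne (hx (16 * t + 26) (by omega)) with h2 | h2
      · refine hasSq_of (16 * t + 14) 8 (by norm_num) (by omega) [5, 6, 4, 1, 0, 2, 3, 7]
          (by decide) ?_ ?_
        · show [ins (F t w) (16 * t + 28) x (16 * t + 19),
            ins (F t w) (16 * t + 28) x (16 * t + 20),
            ins (F t w) (16 * t + 28) x (16 * t + 18),
            ins (F t w) (16 * t + 28) x (16 * t + 15),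
            ins (F t w) (16 * t + 28) x (16 * t + 14),
            ins (F t w) (16 * t + 28) x (16 * t + 16),
            ins (F t w) (16 * t + 28) x (16 * t + 17),
            ins (F t w) (16 * t + 28) x (16 * t + 21)].Pairwise (· < ·)
          rw [g _ (by norm_num), g _ (by norm_num), g _ (by norm_num), g _ (by norm_num),
            g _ (by norm_num), g _ (by norm_num), g _ (by norm_num), g _ (by norm_num)]
          exact chain8 ⟨right_cmp hw (by norm_num) (by norm_num) (by decide),
            right_cmp hw (by norm_num) (by norm_num) (by decide),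
            right_cmp hw (by norm_num) (by norm_num) (by decide),
            right_cmp hw (by norm_num) (by norm_num) (by decide),
            right_cmp hw (by norm_num) (by norm_num) (by decide),
            right_cmp hw (by norm_num) (by norm_num) (by decide),
            right_cmp hw (by norm_num) (by norm_num) (by decide)⟩
        · show [ins (F t w) (16 * t + 28) x (16 * t + 27),
            ins (F t w) (16 * t + 28) x (16 * t + 28),
            ins (F t w) (16 * t + 28) x (16 * t + 26),
            ins (F t w) (16 * t + 28) x (16 * t + 23),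
            ins (F t w) (16 * t + 28) x (16 * t + 22),
            ins (F t w) (16 * t + 28) x (16 * t + 24),
            ins (F t w) (16 * t + 28) x (16 * t + 25),
            ins (F t w) (16 * t + 28) x (16 * t + 29)].Pairwise (· < ·)
          rw [g0, g1, g _ (by norm_num), g _ (by norm_num), g _ (by norm_num),
            g _ (by norm_num), g _ (by norm_num), g _ (by norm_num)]
          exact chain8 ⟨h1, h2, right_cmp hw (by norm_num) (by norm_num) (by decide),
            right_cmp hw (by norm_num) (by norm_num) (by decide),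
            right_cmp hw (by norm_num) (by norm_num) (by decide),
            right_cmp hw (by norm_num) (by norm_num) (by decide),
            right_cmp hw (by norm_num) (by norm_num) (by decide)⟩
      · refine hasSq_of (16 * t + 22) 4 (by norm_num) (by omega) [1, 0, 2, 3] (by decide) ?_ ?_
        · show [ins (F t w) (16 * t + 28) x (16 * t + 23),
            ins (F t w) (16 * t + 28) x (16 * t + 22),
            ins (F t w) (16 * t + 28) x (16 * t + 24),
            ins (F t w) (16 * t + 28) x (16 * t + 25)].Pairwise (· < ·)
          rw [g _ (by norm_num), g _ (by norm_num), g _ (by norm_num), g _ (by norm_num)]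
          exact chain4 ⟨right_cmp hw (by norm_num) (by norm_num) (by decide),
            right_cmp hw (by norm_num) (by norm_num) (by decide),
            right_cmp hw (by norm_num) (by norm_num) (by decide)⟩
        · show [ins (F t w) (16 * t + 28) x (16 * t + 27),
            ins (F t w) (16 * t + 28) x (16 * t + 26),
            ins (F t w) (16 * t + 28) x (16 * t + 28),
            ins (F t w) (16 * t + 28) x (16 * t + 29)].Pairwise (· < ·)
          rw [g0, g1, g _ (by norm_num), g _ (by norm_num)]
          exact chain4 ⟨right_cmp hw (by norm_num) (by norm_num) (by decide), h2, h⟩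
  · refine hasSq_two (16 * t + 26) (by omega) (Or.inr ?_)
    show ins (F t w) (16 * t + 28) x (16 * t + 27) < ins (F t w) (16 * t + 28) x (16 * t + 26) ∧
      ins (F t w) (16 * t + 28) x (16 * t + 29) < ins (F t w) (16 * t + 28) x (16 * t + 28)
    rw [g0, g1, g _ (by norm_num), g _ (by norm_num)]
    exact ⟨right_cmp hw (by norm_num) (by norm_num) (by decide), h⟩

theorem hasSq_last2 (hw : Good t w) (x : ℚ) (hx : ∀ j < 16 * t + 29, x ≠ F t w j) :
    HasSq (ins (F t w) (16 * t + 27) x) (16 * t + 30) := by
  have g0 : ins (F t w) (16 * t + 27) x (16 * t + 27) = x := ins_eq _ _ _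
  have g1 : ins (F t w) (16 * t + 27) x (16 * t + 28) = F t w (16 * t + 27) :=
    ins_gt _ _ (by omega)
  have g2 : ins (F t w) (16 * t + 27) x (16 * t + 29) = F t w (16 * t + 28) :=
    ins_gt _ _ (by omega)
  have g : ∀ j < 27, ins (F t w) (16 * t + 27) x (16 * t + j) = F t w (16 * t + j) :=
    fun j hj => ins_lt _ _ (by omega)
  rcases lt_or_gt_of_ne (hx (16 * t + 27) (by omega)) with h | h
  · refine hasSq_of (16 * t + 14) 8 (by norm_num) (by omega) [5, 6, 4, 1, 0, 2, 3, 7]
      (by decide) ?_ ?_
    · show [ins (F t w) (16 * t + 27) x (16 * t + 19),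
        ins (F t w) (16 * t + 27) x (16 * t + 20),
        ins (F t w) (16 * t + 27) x (16 * t + 18),
        ins (F t w) (16 * t + 27) x (16 * t + 15),
        ins (F t w) (16 * t + 27) x (16 * t + 14),
        ins (F t w) (16 * t + 27) x (16 * t + 16),
        ins (F t w) (16 * t + 27) x (16 * t + 17),
        ins (F t w) (16 * t + 27) x (16 * t + 21)].Pairwise (· < ·)
      rw [g _ (by norm_num), g _ (by norm_num), g _ (by norm_num), g _ (by norm_num),
        g _ (by norm_num), g _ (by norm_num), g _ (by norm_num), g _ (by norm_num)]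
      exact chain8 ⟨right_cmp hw (by norm_num) (by norm_num) (by decide),
        right_cmp hw (by norm_num) (by norm_num) (by decide),
        right_cmp hw (by norm_num) (by norm_num) (by decide),
        right_cmp hw (by norm_num) (by norm_num) (by decide),
        right_cmp hw (by norm_num) (by norm_num) (by decide),
        right_cmp hw (by norm_num) (by norm_num) (by decide),
        right_cmp hw (by norm_num) (by norm_num) (by decide)⟩
    · show [ins (F t w) (16 * t + 27) x (16 * t + 27),
        ins (F t w) (16 * t + 27) x (16 * t + 28),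
        ins (F t w) (16 * t + 27) x (16 * t + 26),
        ins (F t w) (16 * t + 27) x (16 * t + 23),
        ins (F t w) (16 * t + 27) x (16 * t + 22),
        ins (F t w) (16 * t + 27) x (16 * t + 24),
        ins (F t w) (16 * t + 27) x (16 * t + 25),
        ins (F t w) (16 * t + 27) x (16 * t + 29)].Pairwise (· < ·)
      rw [g0, g1, g2, g _ (by norm_num), g _ (by norm_num), g _ (by norm_num),
        g _ (by norm_num), g _ (by norm_num)]
      exact chain8 ⟨h, right_cmp hw (by norm_num) (by norm_num) (by decide),
        right_cmp hw (by norm_num) (by norm_num) (by decide),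
        right_cmp hw (by norm_num) (by norm_num) (by decide),
        right_cmp hw (by norm_num) (by norm_num) (by decide),
        right_cmp hw (by norm_num) (by norm_num) (by decide),
        right_cmp hw (by norm_num) (by norm_num) (by decide)⟩
  · refine hasSq_two (16 * t + 25) (by omega) (Or.inr ?_)
    show ins (F t w) (16 * t + 27) x (16 * t + 26) < ins (F t w) (16 * t + 27) x (16 * t + 25) ∧
      ins (F t w) (16 * t + 27) x (16 * t + 28) < ins (F t w) (16 * t + 27) x (16 * t + 27)
    rw [g0, g1, g _ (by norm_num), g _ (by norm_num)]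
    exact ⟨right_cmp hw (by norm_num) (by norm_num) (by decide), h⟩

/-- Every insertion creates a square. -/
theorem hasSq_ins (hw : Good t w) (p : ℕ) (hp : p ≤ 16 * t + 29) (x : ℚ)
    (hx : ∀ j < 16 * t + 29, x ≠ F t w j) : HasSq (ins (F t w) p x) (16 * t + 30) := by
  by_cases p0 : p = 0
  · subst p0; exact hasSq_zero hw x hx
  by_cases p1 : p = 1
  · subst p1; exact hasSq_one hw x hx
  by_cases p2 : p = 2
  · subst p2; exact hasSq_twoslot hw x hx
  by_cases q0 : p = 16 * t + 29
  · subst q0; exact hasSq_last hw x hx
  by_cases q1 : p = 16 * t + 28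
  · subst q1; exact hasSq_last1 hw x hx
  by_cases q2 : p = 16 * t + 27
  · subst q2; exact hasSq_last2 hw x hx
  obtain ⟨c, rfl⟩ : ∃ c, p = c + 3 := ⟨p - 3, by omega⟩
  exact hasSq_mid hw c (by omega) x hx

/-- Iteration. -/
theorem good_next (hw : Good t w) : Good (8 * t + 13) (fun j => F t w j / 10) := by
  have hn : 2 * (8 * t + 13) + 3 = 16 * t + 29 := by ring
  refine ⟨?_, ?_, ?_⟩
  · intro i hi
    rw [hn] at hi
    have hf := frac hi
    by_cases h6 : i % 8 = 6
    · have hb := hw.bd (i / 8) (by omega)
      show -1 < F t w i / 10 ∧ F t w i / 10 < 1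
      rw [F_six i h6]
      constructor <;> linarith [hb.1, hb.2]
    · have hb := L_bound t i
      have h1 : (-8 : ℚ) ≤ L t i := by exact_mod_cast hb.1
      have h2 : (L t i : ℚ) ≤ 8 := by exact_mod_cast hb.2
      show -1 < F t w i / 10 ∧ F t w i / 10 < 1
      rw [F_ne i h6]
      constructor <;> linarith [hf.1, hf.2]
  · intro i hi j hj h
    rw [hn] at hi hj
    refine F_inj hw hi hj ?_
    have : F t w i / 10 = F t w j / 10 := h
    linarith
  · intro i ℓ h2 hi hsq
    rw [hn] at hi
    refine F_sqFree hw i ℓ h2 hi ?_
    intro a ha b hb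
    have := hsq a ha b hb
    rw [div_lt_div_iff_of_pos_right (by norm_num), div_lt_div_iff_of_pos_right (by norm_num)]
      at this
    exact this

theorem exists_good (N : ℕ) : ∃ t, N ≤ t ∧ ∃ w, Good t w := by
  induction N with
  | zero =>
    refine ⟨0, le_rfl, fun i => (i : ℚ) / 4, ?_, ?_, ?_⟩
    · intro i hi
      have h1 : (0 : ℚ) ≤ i := by positivity
      have h2 : (i : ℚ) ≤ 2 := by exact_mod_cast (show i ≤ 2 by omega)
      constructor <;> linarith
    · intro i _ j _ h
      have : (i : ℚ) / 4 = (j : ℚ) / 4 := h
      have h' : (i : ℚ) = j := by linarith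
      exact_mod_cast h'
    · intro i ℓ h2 hi
      omega
  | succ N ih =>
    obtain ⟨t, ht, w, hw⟩ := ih
    exact ⟨8 * t + 13, by omega, _, good_next hw⟩

end Pool.Agent.X37.Ext
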