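import Mathlib

/-!
# Arbitrarily long extremal square-free permutations

A square-free sequence `w` of `2 t + 3` distinct rationals in `(-1, 1)` is put at the positions
`6, 14, 22, ...` of a sequence of length `16 t + 29`; the other entries are far away, at integer
levels (plus a small increasing perturbation). The new sequence is square-free and extremal.
-/

set_option autoImplicit false

namespace Pool.Agent.X37.Ext

/-- No square in the first `n` entries of `f`. -/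
def SqFree (f : ℕ → ℚ) (n : ℕ) : Prop :=
  ∀ i ℓ : ℕ, 2 ≤ ℓ → i + 2 * ℓ ≤ n →
    ¬ ∀ a < ℓ, ∀ b < ℓ, (f (i + a) < f (i + b) ↔ f (i + ℓ + a) < f (i + ℓ + b))

/-- A square somewhere in the first `n` entries of `f`. -/
def HasSq (f : ℕ → ℚ) (n : ℕ) : Prop :=
  ∃ i ℓ : ℕ, 2 ≤ ℓ ∧ i + 2 * ℓ ≤ n ∧
    ∀ a < ℓ, ∀ b < ℓ, (f (i + a) < f (i + b) ↔ f (i + ℓ + a) < f (i + ℓ + b))

/-- Insert `x` before position `p`. -/
def ins (f : ℕ → ℚ) (p : ℕ) (x : ℚ) (j : ℕ) : ℚ :=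
  if j < p then f j else if j = p then x else f (j - 1)

theorem hasSq_two {g : ℕ → ℚ} {n : ℕ} (i : ℕ) (hi : i + 4 ≤ n)
    (h : (g i < g (i + 1) ∧ g (i + 2) < g (i + 3)) ∨
      (g (i + 1) < g i ∧ g (i + 3) < g (i + 2))) : HasSq g n := by
  refine ⟨i, 2, le_rfl, by omega, ?_⟩
  intro a ha b hb
  have ha' : a = 0 ∨ a = 1 := by omega
  have hb' : b = 0 ∨ b = 1 := by omega
  rcases ha' with rfl | rfl <;> rcases hb' with rfl | rfl
  · simp
  · show g i < g (i + 1) ↔ g (i + 2) < g (i + 2 + 1)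
    rcases h with h | h
    · exact iff_of_true h.1 h.2
    · exact iff_of_false (not_lt.2 h.1.le) (not_lt.2 h.2.le)
  · show g (i + 1) < g i ↔ g (i + 2 + 1) < g (i + 2)
    rcases h with h | h
    · exact iff_of_false (not_lt.2 h.1.le) (not_lt.2 h.2.le)
    · exact iff_of_true h.1 h.2
  · simp

theorem iso_of_pairwise (A B : ℕ → ℚ) (π : List ℕ) (ℓ : ℕ) (hπ : ∀ a < ℓ, a ∈ π)
    (hA : (π.map A).Pairwise (· < ·)) (hB : (π.map B).Pairwise (· < ·)) :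
    ∀ a < ℓ, ∀ b < ℓ, (A a < A b ↔ B a < B b) := by
  intro a ha b hb
  obtain ⟨r, hr, rfl⟩ := List.mem_iff_getElem.1 (hπ a ha)
  obtain ⟨s, hs, rfl⟩ := List.mem_iff_getElem.1 (hπ b hb)
  rw [List.pairwise_iff_getElem] at hA hB
  simp only [List.length_map, List.getElem_map] at hA hB
  rcases lt_trichotomy r s with h | h | h
  · exact iff_of_true (hA r s hr hs h) (hB r s hr hs h)
  · subst h
    simp
  · exact iff_of_false (not_lt.2 (hA s r hs hr h).le) (not_lt.2 (hB s r hs hr h).le)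

theorem hasSq_of {g : ℕ → ℚ} {n : ℕ} (i ℓ : ℕ) (h2 : 2 ≤ ℓ) (hi : i + 2 * ℓ ≤ n) (π : List ℕ)
    (hπ : ∀ a < ℓ, a ∈ π) (hA : (π.map fun a => g (i + a)).Pairwise (· < ·))
    (hB : (π.map fun a => g (i + ℓ + a)).Pairwise (· < ·)) : HasSq g n :=
  ⟨i, ℓ, h2, hi, iso_of_pairwise _ _ π ℓ hπ hA hB⟩

/-- The regular integer levels. -/
def Lr (j : ℕ) : ℤ :=
  if j % 8 = 6 then 0 else if j % 16 = 10 then 3 else if j % 16 = 2 then -3
  else if j % 8 = 0 then 4 else if j % 8 = 4 then -4 else if j % 4 = 1 then 5 else -5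

/-- The integer levels with the changes at the left end. -/
def Ll (j : ℕ) : ℤ :=
  if j = 0 then -8 else if j = 1 then 8 else if j = 2 then 7 else if j = 7 then -6
  else if j = 13 then 2 else Lr j

/-- The integer levels. -/
def L (t j : ℕ) : ℤ :=
  if j = 16 * t + 28 then 8 else if j = 16 * t + 27 then -8
  else if j = 16 * t + 26 then -7 else if j = 16 * t + 21 then 6
  else if j = 16 * t + 15 then -2 else Ll j

theorem Lr_spec (j : ℕ) : (j % 8 = 6 ∧ Lr j = 0) ∨ (j % 16 = 10 ∧ Lr j = 3) ∨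
    (j % 16 = 2 ∧ Lr j = -3) ∨ (j % 8 = 0 ∧ Lr j = 4) ∨ (j % 8 = 4 ∧ Lr j = -4) ∨
    (j % 4 = 1 ∧ Lr j = 5) ∨ (j % 4 = 3 ∧ Lr j = -5) := by
  unfold Lr
  split_ifs <;> omega

theorem L_left (t : ℕ) {j : ℕ} (h : j ≤ 14) : L t j = Ll j := by
  unfold L
  rw [if_neg (by omega), if_neg (by omega), if_neg (by omega), if_neg (by omega),
    if_neg (by omega)]

theorem L_reg (t : ℕ) {j : ℕ} (h0 : j ≠ 0 ∧ j ≠ 1 ∧ j ≠ 2 ∧ j ≠ 7 ∧ j ≠ 13)
    (h1 : j ≠ 16 * t + 28 ∧ j ≠ 16 * t + 27 ∧ j ≠ 16 * t + 26 ∧ j ≠ 16 * t + 21 ∧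
      j ≠ 16 * t + 15) : L t j = Lr j := by
  unfold L Ll
  rw [if_neg h1.1, if_neg h1.2.1, if_neg h1.2.2.1, if_neg h1.2.2.2.1, if_neg h1.2.2.2.2,
    if_neg h0.1, if_neg h0.2.1, if_neg h0.2.2.1, if_neg h0.2.2.2.1, if_neg h0.2.2.2.2]

theorem Ll_spec (j : ℕ) : (j = 0 ∧ Ll j = -8) ∨ (j = 1 ∧ Ll j = 8) ∨ (j = 2 ∧ Ll j = 7) ∨
    (j = 7 ∧ Ll j = -6) ∨ (j = 13 ∧ Ll j = 2) ∨
    ((j ≠ 0 ∧ j ≠ 1 ∧ j ≠ 2 ∧ j ≠ 7 ∧ j ≠ 13) ∧ Ll j = Lr j) := by
  generalize hz : Ll j = z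
  unfold Ll at hz
  split_ifs at hz <;> omega

theorem L_spec (t j : ℕ) : (j = 0 ∧ L t j = -8) ∨ (j = 1 ∧ L t j = 8) ∨ (j = 2 ∧ L t j = 7) ∨
    (j = 7 ∧ L t j = -6) ∨ (j = 13 ∧ L t j = 2) ∨ (j = 16 * t + 28 ∧ L t j = 8) ∨
    (j = 16 * t + 27 ∧ L t j = -8) ∨ (j = 16 * t + 26 ∧ L t j = -7) ∨
    (j = 16 * t + 21 ∧ L t j = 6) ∨ (j = 16 * t + 15 ∧ L t j = -2) ∨
    (((j ≠ 0 ∧ j ≠ 1 ∧ j ≠ 2 ∧ j ≠ 7 ∧ j ≠ 13) ∧ (j ≠ 16 * t + 28 ∧ j ≠ 16 * t + 27 ∧
      j ≠ 16 * t + 26 ∧ j ≠ 16 * t + 21 ∧ j ≠ 16 * t + 15)) ∧ L t j = Lr j) := by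
  by_cases c1 : j = 16 * t + 28
  · exact Or.inr (Or.inr (Or.inr (Or.inr (Or.inr (Or.inl ⟨c1, by unfold L; rw [if_pos c1]⟩)))))
  by_cases c2 : j = 16 * t + 27
  · exact Or.inr (Or.inr (Or.inr (Or.inr (Or.inr (Or.inr (Or.inl
      ⟨c2, by unfold L; rw [if_neg c1, if_pos c2]⟩))))))
  by_cases c3 : j = 16 * t + 26
  · exact Or.inr (Or.inr (Or.inr (Or.inr (Or.inr (Or.inr (Or.inr (Or.inl
      ⟨c3, by unfold L; rw [if_neg c1, if_neg c2, if_pos c3]⟩)))))))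
  by_cases c4 : j = 16 * t + 21
  · exact Or.inr (Or.inr (Or.inr (Or.inr (Or.inr (Or.inr (Or.inr (Or.inr (Or.inl
      ⟨c4, by unfold L; rw [if_neg c1, if_neg c2, if_neg c3, if_pos c4]⟩))))))))
  by_cases c5 : j = 16 * t + 15
  · exact Or.inr (Or.inr (Or.inr (Or.inr (Or.inr (Or.inr (Or.inr (Or.inr (Or.inr (Or.inl
      ⟨c5, by unfold L; rw [if_neg c1, if_neg c2, if_neg c3, if_neg c4, if_pos c5]⟩)))))))))
  have hL : L t j = Ll j := by
    unfold L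
    rw [if_neg c1, if_neg c2, if_neg c3, if_neg c4, if_neg c5]
  rw [hL]
  rcases Ll_spec j with h | h | h | h | h | h
  · exact Or.inl h
  · exact Or.inr (Or.inl h)
  · exact Or.inr (Or.inr (Or.inl h))
  · exact Or.inr (Or.inr (Or.inr (Or.inl h)))
  · exact Or.inr (Or.inr (Or.inr (Or.inr (Or.inl h))))
  · exact Or.inr (Or.inr (Or.inr (Or.inr (Or.inr (Or.inr (Or.inr (Or.inr (Or.inr (Or.inr
      ⟨⟨h.1, c1, c2, c3, c4, c5⟩, h.2⟩)))))))))

/-- The new sequence. -/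
def F (t : ℕ) (w : ℕ → ℚ) (j : ℕ) : ℚ :=
  if j % 8 = 6 then w (j / 8) else L t j + (j : ℚ) / (16 * t + 29)

section
variable (t : ℕ)

theorem L_six {j : ℕ} (h : j % 8 = 6) : L t j = 0 := by
  have h1 := L_spec t j
  have h2 := Lr_spec j
  omega

theorem L_ne {j : ℕ} (h : j % 8 ≠ 6) : L t j ≤ -2 ∨ 2 ≤ L t j := by
  have h1 := L_spec t j
  have h2 := Lr_spec j
  omega

theorem L_bound (j : ℕ) : -8 ≤ L t j ∧ L t j ≤ 8 := by
  have h1 := L_spec t j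
  have h2 := Lr_spec j
  omega

/-- Steps of the whole sequence. -/
theorem step0 {j : ℕ} (hj : j + 1 < 16 * t + 29) :
    (L t j < L t (j + 1) ∧ (j % 4 = 0 ∨ j % 4 = 3)) ∨
      (L t (j + 1) < L t j ∧ (j % 4 = 1 ∨ j % 4 = 2)) := by
  have h1 := L_spec t j
  have h2 := Lr_spec j
  have h3 := L_spec t (j + 1)
  have h4 := Lr_spec (j + 1)
  omega

theorem step1 {u : ℕ} (h1 : 1 ≤ u) (hu : u ≤ 8 * t + 12) :
    (L t (2 * u) < L t (2 * u + 2) ∧ (u % 4 = 2 ∨ u % 4 = 3)) ∨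
      (L t (2 * u + 2) < L t (2 * u) ∧ (u % 4 = 0 ∨ u % 4 = 1)) := by
  have h1 := L_spec t (2 * u)
  have h2 := Lr_spec (2 * u)
  have h3 := L_spec t (2 * u + 2)
  have h4 := Lr_spec (2 * u + 2)
  omega

theorem step2 {v : ℕ} (h1 : 1 ≤ v) (hv : v ≤ 4 * t + 4) :
    (L t (4 * v + 2) < L t (4 * v + 6) ∧ (v % 4 = 0 ∨ v % 4 = 1)) ∨
      (L t (4 * v + 6) < L t (4 * v + 2) ∧ (v % 4 = 2 ∨ v % 4 = 3)) := by
  have h1 := L_spec t (4 * v + 2)
  have h2 := Lr_spec (4 * v + 2)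
  have h3 := L_spec t (4 * v + 6)
  have h4 := Lr_spec (4 * v + 6)
  omega

end

/-- A square-free sequence of `2 t + 3` distinct rationals in `(-1, 1)`. -/
structure Good (t : ℕ) (w : ℕ → ℚ) : Prop where
  bd : ∀ i < 2 * t + 3, -1 < w i ∧ w i < 1
  inj : ∀ i < 2 * t + 3, ∀ j < 2 * t + 3, w i = w j → i = j
  sq : SqFree w (2 * t + 3)

section
variable {t : ℕ} {w : ℕ → ℚ}

theorem F_six (j : ℕ) (h : j % 8 = 6) : F t w j = w (j / 8) := by
  unfold F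
  rw [if_pos h]

theorem F_ne (j : ℕ) (h : j % 8 ≠ 6) : F t w j = L t j + (j : ℚ) / (16 * t + 29) := by
  unfold F
  rw [if_neg h]

theorem frac {j : ℕ} (hj : j < 16 * t + 29) :
    0 ≤ (j : ℚ) / (16 * t + 29) ∧ (j : ℚ) / (16 * t + 29) < 1 := by
  have h0 : (0 : ℚ) < 16 * t + 29 := by positivity
  refine ⟨by positivity, ?_⟩
  rw [div_lt_one h0]
  exact_mod_cast hj

theorem F_lt (hw : Good t w) {j k : ℕ} (hj : j < 16 * t + 29) (hk : k < 16 * t + 29)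
    (h : L t j < L t k) : F t w j < F t w k := by
  have fj := frac hj
  have fk := frac hk
  have h' : (L t j : ℚ) + 1 ≤ L t k := by exact_mod_cast h
  by_cases cj : j % 8 = 6
  · have lj := L_six t cj
    have bj := hw.bd (j / 8) (by omega)
    rw [F_six j cj]
    by_cases ck : k % 8 = 6
    · have lk := L_six t ck
      omega
    · have lk := L_ne t ck
      have lk' : (2 : ℤ) ≤ L t k := by omega
      have lk'' : (2 : ℚ) ≤ L t k := by exact_mod_cast lk'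
      rw [F_ne k ck]
      linarith [bj.2, fk.1]
  · have lj := L_ne t cj
    rw [F_ne j cj]
    by_cases ck : k % 8 = 6
    · have lk := L_six t ck
      have bk := hw.bd (k / 8) (by omega)
      have lj' : L t j ≤ -2 := by omega
      have lj'' : (L t j : ℚ) ≤ -2 := by exact_mod_cast lj'
      rw [F_six k ck]
      linarith [bk.1, fj.2]
    · rw [F_ne k ck]
      linarith [fj.2, fk.1]

theorem F_inj (hw : Good t w) {j k : ℕ} (hj : j < 16 * t + 29) (hk : k < 16 * t + 29)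
    (h : F t w j = F t w k) : j = k := by
  have hL : L t j = L t k := by
    rcases lt_trichotomy (L t j) (L t k) with h1 | h1 | h1
    · exact absurd h (F_lt hw hj hk h1).ne
    · exact h1
    · exact absurd h (F_lt hw hk hj h1).ne'
  by_cases cj : j % 8 = 6
  · have lj := L_six t cj
    by_cases ck : k % 8 = 6
    · rw [F_six j cj, F_six k ck] at h
      have := hw.inj (j / 8) (by omega) (k / 8) (by omega) h
      omega
    · have lk := L_ne t ck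
      omega
  · have lj := L_ne t cj
    by_cases ck : k % 8 = 6
    · have lk := L_six t ck
      omega
    · rw [F_ne j cj, F_ne k ck, hL] at h
      have h0 : (0 : ℚ) < 16 * t + 29 := by positivity
      have h1 : (j : ℚ) / (16 * t + 29) = (k : ℚ) / (16 * t + 29) := by linarith
      have h2 : (j : ℚ) = k := by
        field_simp at h1
        exact h1
      exact_mod_cast h2

theorem F_iff (hw : Good t w) {j k : ℕ} (hj : j < 16 * t + 29) (hk : k < 16 * t + 29)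
    {p : Prop} (h : (L t j < L t k ∧ p) ∨ (L t k < L t j ∧ ¬ p)) :
    (F t w j < F t w k ↔ p) := by
  rcases h with h | h
  · exact iff_of_true (F_lt hw hj hk h.1) h.2
  · exact iff_of_false (not_lt.2 (F_lt hw hk hj h.1).le) h.2

theorem up0 (hw : Good t w) {j : ℕ} (hj : j + 1 < 16 * t + 29) :
    (F t w j < F t w (j + 1) ↔ (j % 4 = 0 ∨ j % 4 = 3)) := by
  apply F_iff hw (by omega) hj
  have := step0 t hj
  omega

theorem up1 (hw : Good t w) {u : ℕ} (h1 : 1 ≤ u) (hu : u ≤ 8 * t + 12) :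
    (F t w (2 * u) < F t w (2 * u + 2) ↔ (u % 4 = 2 ∨ u % 4 = 3)) := by
  apply F_iff hw (by omega) (by omega)
  have := step1 t h1 hu
  omega

theorem up2 (hw : Good t w) {v : ℕ} (h1 : 1 ≤ v) (hv : v ≤ 4 * t + 4) :
    (F t w (4 * v + 2) < F t w (4 * v + 6) ↔ (v % 4 = 0 ∨ v % 4 = 1)) := by
  apply F_iff hw (by omega) (by omega)
  have := step2 t h1 hv
  omega

end

end Pool.Agent.X37.Ext
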