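import Pool.Agent.X37.Ext

set_option autoImplicit false

namespace Pool.Agent.X37.Ext

variable {t : ℕ} {w : ℕ → ℚ}

/-- The new sequence is square-free. -/
theorem F_sqFree (hw : Good t w) : SqFree (F t w) (16 * t + 29) := by
  intro i ℓ h2 hi hsq
  -- the length is a multiple of four
  have hs0 := hsq 0 (by omega) 1 (by omega)
  have e0 : F t w (i + 0) < F t w (i + 1) ↔ (i % 4 = 0 ∨ i % 4 = 3) := up0 hw (by omega)
  have e1 : F t w (i + ℓ + 0) < F t w (i + ℓ + 1) ↔ ((i + ℓ) % 4 = 0 ∨ (i + ℓ) % 4 = 3) :=
    up0 hw (by omega)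
  rw [e0, e1] at hs0
  have hℓ : ℓ % 4 = 0 := by
    by_cases h3 : ℓ = 2
    · omega
    have hs1 := hsq 1 (by omega) 2 (by omega)
    have e2 : F t w (i + 1) < F t w (i + 2) ↔ ((i + 1) % 4 = 0 ∨ (i + 1) % 4 = 3) :=
      up0 hw (by omega)
    have e3 : F t w (i + ℓ + 1) < F t w (i + ℓ + 2) ↔
        ((i + ℓ + 1) % 4 = 0 ∨ (i + ℓ + 1) % 4 = 3) := up0 hw (by omega)
    rw [e2, e3] at hs1
    omega
  -- first level: even positions
  obtain ⟨u, hu⟩ : ∃ u, 2 * u = i + i % 2 := ⟨(i + i % 2) / 2, by omega⟩
  obtain ⟨h, hh⟩ : ∃ h, ℓ = 2 * h := ⟨ℓ / 2, by omega⟩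
  have hm : ∀ a < h, ∀ b < h, (F t w (2 * (u + a)) < F t w (2 * (u + b)) ↔
      F t w (2 * (u + h + a)) < F t w (2 * (u + h + b))) := by
    intro a ha b hb
    have := hsq (i % 2 + 2 * a) (by omega) (i % 2 + 2 * b) (by omega)
    rw [show i + (i % 2 + 2 * a) = 2 * (u + a) by omega,
      show i + (i % 2 + 2 * b) = 2 * (u + b) by omega,
      show i + ℓ + (i % 2 + 2 * a) = 2 * (u + h + a) by omega,
      show i + ℓ + (i % 2 + 2 * b) = 2 * (u + h + b) by omega] at this
    exact this
  have hub : u + 2 * h ≤ 8 * t + 15 := by omega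
  -- steps at the first level
  have st1 : ∀ a, a + 1 < h → (F t w (2 * (u + a)) < F t w (2 * (u + a) + 2) ↔
      F t w (2 * (u + h + a)) < F t w (2 * (u + h + a) + 2)) := fun a ha =>
    hm a (by omega) (a + 1) ha
  have hu1 : 1 ≤ u := by
    by_contra h0
    have hu0 : u = 0 := by omega
    subst hu0
    by_cases hh2 : h = 2
    · -- the square of length 8 at the very beginning
      have hi0 : i = 0 := by omega
      subst hi0
      have hq := hsq 0 (by omega) 3 (by omega)
      have q1 : F t w (0 + 0) < F t w (0 + 3) := F_lt hw (by omega) (by omega) (by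
        have h1 := L_spec t (0 + 0)
        have h2 := L_spec t (0 + 3)
        have h3 := Lr_spec (0 + 3)
        omega)
      have q2 : F t w (0 + ℓ + 3) < F t w (0 + ℓ + 0) := F_lt hw (by omega) (by omega) (by
        have e : ℓ = 4 := by omega
        subst e
        have h1 := L_spec t (0 + 4 + 3)
        have h2 := L_spec t (0 + 4 + 0)
        have h3 := Lr_spec (0 + 4 + 0)
        omega)
      exact absurd (hq.1 q1) (not_lt.2 q2.le)
    · have s0 := st1 0 (by omega)
      have s2 := st1 2 (by omega)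
      have r0 : F t w (2 * (0 + 0)) < F t w (2 * (0 + 0) + 2) := F_lt hw (by omega) (by omega) (by
        have h1 := L_spec t (2 * (0 + 0))
        have h2 := L_spec t (2 * (0 + 0) + 2)
        omega)
      have r2 : F t w (2 * (0 + 2)) < F t w (2 * (0 + 2) + 2) := (up1 hw (by omega) (by omega)).2
        (by omega)
      have r3 := (up1 hw (by omega) (by omega)).1 (s0.1 r0)
      have r4 := (up1 hw (by omega) (by omega)).1 (s2.1 r2)
      omega
  have hu2 : u + 2 * h ≤ 8 * t + 14 := by
    by_contra h0
    have hu0 : u + 2 * h = 8 * t + 15 := by omega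
    by_cases hh2 : h = 2
    · have hi0 : i = 16 * t + 21 := by omega
      have e : ℓ = 4 := by omega
      subst hi0
      subst e
      have hq := hsq 0 (by omega) 3 (by omega)
      have q1 : F t w (16 * t + 21 + 3) < F t w (16 * t + 21 + 0) :=
        F_lt hw (by omega) (by omega) (by
          have h1 := L_spec t (16 * t + 21 + 0)
          have h2 := L_spec t (16 * t + 21 + 3)
          have h3 := Lr_spec (16 * t + 21 + 3)
          omega)
      have q2 : F t w (16 * t + 21 + 4 + 0) < F t w (16 * t + 21 + 4 + 3) :=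
        F_lt hw (by omega) (by omega) (by
          have h1 := L_spec t (16 * t + 21 + 4 + 0)
          have h2 := L_spec t (16 * t + 21 + 4 + 3)
          have h3 := Lr_spec (16 * t + 21 + 4 + 0)
          omega)
      exact absurd (hq.2 q2) (not_lt.2 q1.le)
    · have s0 := st1 (h - 2) (by omega)
      have s2 := st1 (h - 4) (by omega)
      have r0 : F t w (2 * (u + h + (h - 2))) < F t w (2 * (u + h + (h - 2)) + 2) :=
        F_lt hw (by omega) (by omega) (by
          have e : u + h + (h - 2) = 8 * t + 13 := by omega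
          rw [e]
          have h1 := L_spec t (2 * (8 * t + 13))
          have h2 := L_spec t (2 * (8 * t + 13) + 2)
          omega)
      have r2 : F t w (2 * (u + h + (h - 4))) < F t w (2 * (u + h + (h - 4)) + 2) :=
        (up1 hw (by omega) (by omega)).2 (by omega)
      have r3 := (up1 hw (by omega) (by omega)).1 (s0.2 r0)
      have r4 := (up1 hw (by omega) (by omega)).1 (s2.2 r2)
      omega
  have hh4 : h % 4 = 0 := by
    have s0 := st1 0 (by omega)
    rw [up1 hw (by omega) (by omega), up1 hw (by omega) (by omega)] at s0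
    by_cases hh2 : h = 2
    · omega
    have s1 := st1 1 (by omega)
    rw [up1 hw (by omega) (by omega), up1 hw (by omega) (by omega)] at s1
    omega
  -- second level
  obtain ⟨v, hv⟩ : ∃ v, 2 * v + 1 = u + (u + 1) % 2 := ⟨(u + (u + 1) % 2) / 2, by omega⟩
  obtain ⟨g, hg⟩ : ∃ g, h = 2 * g := ⟨h / 2, by omega⟩
  have hm2 : ∀ a < g, ∀ b < g, (F t w (4 * (v + a) + 2) < F t w (4 * (v + b) + 2) ↔
      F t w (4 * (v + g + a) + 2) < F t w (4 * (v + g + b) + 2)) := by
    intro a ha b hb
    have := hm ((u + 1) % 2 + 2 * a) (by omega) ((u + 1) % 2 + 2 * b) (by omega)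
    rw [show 2 * (u + ((u + 1) % 2 + 2 * a)) = 4 * (v + a) + 2 by omega,
      show 2 * (u + ((u + 1) % 2 + 2 * b)) = 4 * (v + b) + 2 by omega,
      show 2 * (u + h + ((u + 1) % 2 + 2 * a)) = 4 * (v + g + a) + 2 by omega,
      show 2 * (u + h + ((u + 1) % 2 + 2 * b)) = 4 * (v + g + b) + 2 by omega] at this
    exact this
  have hvb : v + 2 * g ≤ 4 * t + 7 := by omega
  have st2 : ∀ a, a + 1 < g → (F t w (4 * (v + a) + 2) < F t w (4 * (v + a) + 6) ↔
      F t w (4 * (v + g + a) + 2) < F t w (4 * (v + g + a) + 6)) := fun a ha =>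
    hm2 a (by omega) (a + 1) ha
  have hv1 : 1 ≤ v := by
    by_contra h0
    have hv0 : v = 0 := by omega
    subst hv0
    by_cases hg2 : g = 2
    · have hu' : u = 1 := by omega
      have e : h = 4 := by omega
      subst hu'
      subst e
      have hq := hm 0 (by omega) 3 (by omega)
      have q1 : F t w (2 * (1 + 3)) < F t w (2 * (1 + 0)) := F_lt hw (by omega) (by omega) (by
        have h1 := L_spec t (2 * (1 + 0))
        have h2 := L_spec t (2 * (1 + 3))
        have h3 := Lr_spec (2 * (1 + 3))
        omega)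
      have q2 : F t w (2 * (1 + 4 + 0)) < F t w (2 * (1 + 4 + 3)) :=
        F_lt hw (by omega) (by omega) (by
          have h1 := L_spec t (2 * (1 + 4 + 0))
          have h2 := L_spec t (2 * (1 + 4 + 3))
          have h3 := Lr_spec (2 * (1 + 4 + 0))
          have h4 := Lr_spec (2 * (1 + 4 + 3))
          omega)
      exact absurd (hq.2 q2) (not_lt.2 q1.le)
    · have s0 := st2 0 (by omega)
      have s2 := st2 2 (by omega)
      have r0 : F t w (4 * (0 + 0) + 6) < F t w (4 * (0 + 0) + 2) :=
        F_lt hw (by omega) (by omega) (by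
          have h1 := L_spec t (4 * (0 + 0) + 6)
          have h3 := Lr_spec (4 * (0 + 0) + 6)
          have h2 := L_spec t (4 * (0 + 0) + 2)
          omega)
      have r1 := mt s0.2 (not_lt.2 r0.le)
      have r2 : ¬ F t w (4 * (0 + 2) + 2) < F t w (4 * (0 + 2) + 6) := by
        rw [up2 hw (by omega) (by omega)]
        omega
      have r3 := mt s2.2 r2
      rw [up2 hw (by omega) (by omega)] at r1 r3
      omega
  have hv2 : v + 2 * g ≤ 4 * t + 6 := by
    by_contra h0
    have hv0 : v + 2 * g = 4 * t + 7 := by omega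
    by_cases hg2 : g = 2
    · have hu' : u = 8 * t + 6 := by omega
      have e : h = 4 := by omega
      subst hu'
      subst e
      have hq := hm 0 (by omega) 3 (by omega)
      have q1 : F t w (2 * (8 * t + 6 + 0)) < F t w (2 * (8 * t + 6 + 3)) :=
        F_lt hw (by omega) (by omega) (by
          have h1 := L_spec t (2 * (8 * t + 6 + 0))
          have h2 := L_spec t (2 * (8 * t + 6 + 3))
          have h3 := Lr_spec (2 * (8 * t + 6 + 0))
          have h4 := Lr_spec (2 * (8 * t + 6 + 3))
          omega)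
      have q2 : F t w (2 * (8 * t + 6 + 4 + 3)) < F t w (2 * (8 * t + 6 + 4 + 0)) :=
        F_lt hw (by omega) (by omega) (by
          have h1 := L_spec t (2 * (8 * t + 6 + 4 + 0))
          have h2 := L_spec t (2 * (8 * t + 6 + 4 + 3))
          have h3 := Lr_spec (2 * (8 * t + 6 + 4 + 0))
          omega)
      exact absurd (hq.1 q1) (not_lt.2 q2.le)
    · have s0 := st2 (g - 2) (by omega)
      have s2 := st2 (g - 4) (by omega)
      have r0 : F t w (4 * (v + g + (g - 2)) + 6) < F t w (4 * (v + g + (g - 2)) + 2) :=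
        F_lt hw (by omega) (by omega) (by
          have e : v + g + (g - 2) = 4 * t + 5 := by omega
          rw [e]
          have h1 := L_spec t (4 * (4 * t + 5) + 6)
          have h2 := L_spec t (4 * (4 * t + 5) + 2)
          have h3 := Lr_spec (4 * (4 * t + 5) + 2)
          omega)
      have r1 := mt s0.1 (not_lt.2 r0.le)
      have r2 : ¬ F t w (4 * (v + g + (g - 4)) + 2) < F t w (4 * (v + g + (g - 4)) + 6) := by
        rw [up2 hw (by omega) (by omega)]
        omega
      have r3 := mt s2.1 r2
      rw [up2 hw (by omega) (by omega)] at r1 r3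
      omega
  have hg4 : g % 4 = 0 := by
    have s0 := st2 0 (by omega)
    rw [up2 hw (by omega) (by omega), up2 hw (by omega) (by omega)] at s0
    by_cases hg2 : g = 2
    · omega
    have s1 := st2 1 (by omega)
    rw [up2 hw (by omega) (by omega), up2 hw (by omega) (by omega)] at s1
    omega
  -- third level
  obtain ⟨r, hr⟩ : ∃ r, 2 * r + 1 = v + (v + 1) % 2 := ⟨(v + (v + 1) % 2) / 2, by omega⟩
  obtain ⟨q, hq⟩ : ∃ q, g = 2 * q := ⟨g / 2, by omega⟩
  refine hw.sq r q (by omega) (by omega) ?_
  intro a ha b hb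
  have := hm2 ((v + 1) % 2 + 2 * a) (by omega) ((v + 1) % 2 + 2 * b) (by omega)
  rw [F_six _ (by omega), F_six _ (by omega), F_six _ (by omega), F_six _ (by omega),
    show (4 * (v + ((v + 1) % 2 + 2 * a)) + 2) / 8 = r + a by omega,
    show (4 * (v + ((v + 1) % 2 + 2 * b)) + 2) / 8 = r + b by omega,
    show (4 * (v + g + ((v + 1) % 2 + 2 * a)) + 2) / 8 = r + q + a by omega,
    show (4 * (v + g + ((v + 1) % 2 + 2 * b)) + 2) / 8 = r + q + b by omega] at this
  exact this

end Pool.Agent.X37.Ext
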