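import Pool.Agent.X37.Ext2

set_option autoImplicit false

namespace Pool.Agent.X37.Ext

theorem ins_lt (f : ℕ → ℚ) {p : ℕ} (x : ℚ) {j : ℕ} (h : j < p) : ins f p x j = f j := by
  unfold ins
  rw [if_pos h]

theorem ins_eq (f : ℕ → ℚ) (p : ℕ) (x : ℚ) : ins f p x p = x := by
  unfold ins
  rw [if_neg (lt_irrefl p), if_pos rfl]

theorem ins_gt (f : ℕ → ℚ) {p : ℕ} (x : ℚ) {j : ℕ} (h : p ≤ j) : ins f p x (j + 1) = f j := by
  unfold ins
  rw [if_neg (by omega), if_neg (by omega)]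
  rfl

theorem chain4 {a b c d : ℚ} (h : a < b ∧ b < c ∧ c < d) : [a, b, c, d].Pairwise (· < ·) := by
  rw [← List.isChain_iff_pairwise]
  simp [h]

theorem chain8 {a b c d e f g h : ℚ}
    (H : a < b ∧ b < c ∧ c < d ∧ d < e ∧ e < f ∧ f < g ∧ g < h) :
    [a, b, c, d, e, f, g, h].Pairwise (· < ·) := by
  rw [← List.isChain_iff_pairwise]
  simp [H]

variable {t : ℕ} {w : ℕ → ℚ}

/-- Insertions in the interior. -/
theorem hasSq_mid (hw : Good t w) (c : ℕ) (hc : c + 5 < 16 * t + 29) (x : ℚ)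
    (hx : ∀ j < 16 * t + 29, x ≠ F t w j) :
    HasSq (ins (F t w) (c + 3) x) (16 * t + 30) := by
  have g0 : ins (F t w) (c + 3) x c = F t w c := ins_lt _ _ (by omega)
  have g1 : ins (F t w) (c + 3) x (c + 1) = F t w (c + 1) := ins_lt _ _ (by omega)
  have g2 : ins (F t w) (c + 3) x (c + 2) = F t w (c + 2) := ins_lt _ _ (by omega)
  have g3 : ins (F t w) (c + 3) x (c + 3) = x := ins_eq _ _ _
  have g4 : ins (F t w) (c + 3) x (c + 4) = F t w (c + 3) := ins_gt _ _ (by omega)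
  have g5 : ins (F t w) (c + 3) x (c + 5) = F t w (c + 4) := ins_gt _ _ (by omega)
  have g6 : ins (F t w) (c + 3) x (c + 6) = F t w (c + 5) := ins_gt _ _ (by omega)
  have st : ∀ j, j + 1 < 16 * t + 29 → (F t w j < F t w (j + 1) ∧ (j % 4 = 0 ∨ j % 4 = 3)) ∨
      (F t w (j + 1) < F t w j ∧ (j % 4 = 1 ∨ j % 4 = 2)) := by
    intro j hj
    rcases step0 t hj with h | h
    · exact Or.inl ⟨F_lt hw (by omega) hj h.1, h.2⟩
    · exact Or.inr ⟨F_lt hw hj (by omega) h.1, h.2⟩
  have s0 := st c (by omega)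
  have s1 : (F t w (c + 1) < F t w (c + 2) ∧ _) ∨ _ := st (c + 1) (by omega)
  have s3 : (F t w (c + 3) < F t w (c + 4) ∧ _) ∨ _ := st (c + 3) (by omega)
  have s4 : (F t w (c + 4) < F t w (c + 5) ∧ _) ∨ _ := st (c + 4) (by omega)
  have a1 : x < F t w (c + 2) ∨ F t w (c + 2) < x := lt_or_gt_of_ne (hx _ (by omega))
  have a2 : x < F t w (c + 3) ∨ F t w (c + 3) < x := lt_or_gt_of_ne (hx _ (by omega))
  have q0 : ((F t w c < F t w (c + 1) ∧ F t w (c + 2) < x) ∨
      (F t w (c + 1) < F t w c ∧ x < F t w (c + 2))) →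
      HasSq (ins (F t w) (c + 3) x) (16 * t + 30) := by
    intro h
    refine hasSq_two c (by omega) ?_
    rw [g0, g1, g2, g3]
    exact h
  have q1 : ((F t w (c + 1) < F t w (c + 2) ∧ x < F t w (c + 3)) ∨
      (F t w (c + 2) < F t w (c + 1) ∧ F t w (c + 3) < x)) →
      HasSq (ins (F t w) (c + 3) x) (16 * t + 30) := by
    intro h
    refine hasSq_two (c + 1) (by omega) ?_
    show ((ins (F t w) (c + 3) x (c + 1) < ins (F t w) (c + 3) x (c + 2) ∧
      ins (F t w) (c + 3) x (c + 3) < ins (F t w) (c + 3) x (c + 4)) ∨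
      (ins (F t w) (c + 3) x (c + 2) < ins (F t w) (c + 3) x (c + 1) ∧
      ins (F t w) (c + 3) x (c + 4) < ins (F t w) (c + 3) x (c + 3)))
    rw [g1, g2, g3, g4]
    exact h
  have q2 : ((F t w (c + 2) < x ∧ F t w (c + 3) < F t w (c + 4)) ∨
      (x < F t w (c + 2) ∧ F t w (c + 4) < F t w (c + 3))) →
      HasSq (ins (F t w) (c + 3) x) (16 * t + 30) := by
    intro h
    refine hasSq_two (c + 2) (by omega) ?_
    show ((ins (F t w) (c + 3) x (c + 2) < ins (F t w) (c + 3) x (c + 3) ∧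
      ins (F t w) (c + 3) x (c + 4) < ins (F t w) (c + 3) x (c + 5)) ∨
      (ins (F t w) (c + 3) x (c + 3) < ins (F t w) (c + 3) x (c + 2) ∧
      ins (F t w) (c + 3) x (c + 5) < ins (F t w) (c + 3) x (c + 4)))
    rw [g2, g3, g4, g5]
    exact h
  have q3 : ((x < F t w (c + 3) ∧ F t w (c + 4) < F t w (c + 5)) ∨
      (F t w (c + 3) < x ∧ F t w (c + 5) < F t w (c + 4))) →
      HasSq (ins (F t w) (c + 3) x) (16 * t + 30) := by
    intro h
    refine hasSq_two (c + 3) (by omega) ?_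
    show ((ins (F t w) (c + 3) x (c + 3) < ins (F t w) (c + 3) x (c + 4) ∧
      ins (F t w) (c + 3) x (c + 5) < ins (F t w) (c + 3) x (c + 6)) ∨
      (ins (F t w) (c + 3) x (c + 4) < ins (F t w) (c + 3) x (c + 3) ∧
      ins (F t w) (c + 3) x (c + 6) < ins (F t w) (c + 3) x (c + 5)))
    rw [g3, g4, g5, g6]
    exact h
  have hc4 : c % 4 = 0 ∨ c % 4 = 1 ∨ c % 4 = 2 ∨ c % 4 = 3 := by omega
  have up : ∀ {p q : Prop} {j : ℕ}, ((p ∧ (j % 4 = 0 ∨ j % 4 = 3)) ∨
      (q ∧ (j % 4 = 1 ∨ j % 4 = 2))) → (j % 4 = 0 ∨ j % 4 = 3) → p := by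
    intro p q j h h'
    rcases h with h | h
    · exact h.1
    · exfalso
      have := h.2
      omega
  have dn : ∀ {p q : Prop} {j : ℕ}, ((p ∧ (j % 4 = 0 ∨ j % 4 = 3)) ∨
      (q ∧ (j % 4 = 1 ∨ j % 4 = 2))) → (j % 4 = 1 ∨ j % 4 = 2) → q := by
    intro p q j h h'
    rcases h with h | h
    · exfalso
      have := h.2
      omega
    · exact h.1
  rcases hc4 with h | h | h | h
  · -- U D . U U
    have t0 := up s0 (by omega)
    have t1 := dn s1 (by omega)
    have t3 := up s3 (by omega)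
    have t4 := up s4 (by omega)
    rcases a1 with a1 | a1
    · rcases a2 with a2 | a2
      · exact q3 (Or.inl ⟨a2, t4⟩)
      · exact q1 (Or.inr ⟨t1, a2⟩)
    · exact q0 (Or.inl ⟨t0, a1⟩)
  · -- D D . U D
    have t0 := dn s0 (by omega)
    have t3 := up s3 (by omega)
    rcases a1 with a1 | a1
    · exact q0 (Or.inr ⟨t0, a1⟩)
    · exact q2 (Or.inl ⟨a1, t3⟩)
  · -- D U . D D
    have t0 := dn s0 (by omega)
    have t1 := up s1 (by omega)
    have t4 := dn s4 (by omega)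
    rcases a1 with a1 | a1
    · exact q0 (Or.inr ⟨t0, a1⟩)
    · rcases a2 with a2 | a2
      · exact q1 (Or.inl ⟨t1, a2⟩)
      · exact q3 (Or.inr ⟨a2, t4⟩)
  · -- U U . D U
    have t0 := up s0 (by omega)
    have t3 := dn s3 (by omega)
    rcases a1 with a1 | a1
    · exact q2 (Or.inr ⟨a1, t3⟩)
    · exact q0 (Or.inl ⟨t0, a1⟩)

/-- Levels at the left end. -/
theorem lev (t : ℕ) : L t 0 = -8 ∧ L t 1 = 8 ∧ L t 2 = 7 ∧ L t 3 = -5 ∧ L t 4 = -4 ∧ L t 5 = 5 ∧
    L t 6 = 0 ∧ L t 7 = -6 ∧ L t 8 = 4 ∧ L t 9 = 5 ∧ L t 10 = 3 ∧ L t 11 = -5 ∧ L t 12 = -4 ∧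
    L t 13 = 2 ∧ L t 14 = 0 := by
  refine ⟨?_, ?_, ?_, ?_, ?_, ?_, ?_, ?_, ?_, ?_, ?_, ?_, ?_, ?_, ?_⟩ <;>
    rw [L_left t (by norm_num)] <;> rfl

theorem left_cmp (hw : Good t w) {j k : ℕ} (hj : j ≤ 14) (hk : k ≤ 14) (h : Ll j < Ll k) :
    F t w j < F t w k :=
  F_lt hw (by omega) (by omega) (by rw [L_left t hj, L_left t hk]; exact h)

theorem hasSq_zero (hw : Good t w) (x : ℚ) (hx : ∀ j < 16 * t + 29, x ≠ F t w j) :
    HasSq (ins (F t w) 0 x) (16 * t + 30) := by
  have g0 : ins (F t w) 0 x 0 = x := ins_eq _ _ _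
  have g : ∀ j, ins (F t w) 0 x (j + 1) = F t w j := fun j => ins_gt _ _ (by omega)
  rcases lt_or_gt_of_ne (hx 0 (by omega)) with h | h
  · refine hasSq_of 0 4 (by norm_num) (by omega) [0, 1, 3, 2] (by decide) ?_ ?_
    · show [ins (F t w) 0 x 0, ins (F t w) 0 x (0 + 1), ins (F t w) 0 x (2 + 1),
        ins (F t w) 0 x (1 + 1)].Pairwise (· < ·)
      rw [g0, g, g, g]
      exact chain4 ⟨h, left_cmp hw (by norm_num) (by norm_num) (by decide),
        left_cmp hw (by norm_num) (by norm_num) (by decide)⟩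
    · show [ins (F t w) 0 x (3 + 1), ins (F t w) 0 x (4 + 1), ins (F t w) 0 x (6 + 1),
        ins (F t w) 0 x (5 + 1)].Pairwise (· < ·)
      rw [g, g, g, g]
      exact chain4 ⟨left_cmp hw (by norm_num) (by norm_num) (by decide),
        left_cmp hw (by norm_num) (by norm_num) (by decide),
        left_cmp hw (by norm_num) (by norm_num) (by decide)⟩
  · refine hasSq_two 0 (by omega) (Or.inr ?_)
    show ins (F t w) 0 x (0 + 1) < ins (F t w) 0 x 0 ∧
      ins (F t w) 0 x (2 + 1) < ins (F t w) 0 x (1 + 1)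
    rw [g0, g, g, g]
    exact ⟨h, left_cmp hw (by norm_num) (by norm_num) (by decide)⟩

theorem hasSq_one (hw : Good t w) (x : ℚ) (hx : ∀ j < 16 * t + 29, x ≠ F t w j) :
    HasSq (ins (F t w) 1 x) (16 * t + 30) := by
  have g0 : ins (F t w) 1 x 0 = F t w 0 := ins_lt _ _ (by omega)
  have g1 : ins (F t w) 1 x 1 = x := ins_eq _ _ _
  have g : ∀ j, ins (F t w) 1 x (j + 1 + 1) = F t w (j + 1) := fun j => ins_gt _ _ (by omega)
  rcases lt_or_gt_of_ne (hx 0 (by omega)) with h | h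
  · refine hasSq_two 0 (by omega) (Or.inr ?_)
    show ins (F t w) 1 x 1 < ins (F t w) 1 x 0 ∧
      ins (F t w) 1 x (1 + 1 + 1) < ins (F t w) 1 x (0 + 1 + 1)
    rw [g0, g1, g, g]
    exact ⟨h, left_cmp hw (by norm_num) (by norm_num) (by decide)⟩
  rcases lt_or_gt_of_ne (hx 1 (by omega)) with h1 | h1
  · rcases lt_or_gt_of_ne (hx 2 (by omega)) with h2 | h2
    · refine hasSq_of 0 4 (by norm_num) (by omega) [0, 1, 3, 2] (by decide) ?_ ?_
      · show [ins (F t w) 1 x 0, ins (F t w) 1 x 1, ins (F t w) 1 x (1 + 1 + 1),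
          ins (F t w) 1 x (0 + 1 + 1)].Pairwise (· < ·)
        rw [g0, g1, g, g]
        exact chain4 ⟨h, h2, left_cmp hw (by norm_num) (by norm_num) (by decide)⟩
      · show [ins (F t w) 1 x (2 + 1 + 1), ins (F t w) 1 x (3 + 1 + 1),
          ins (F t w) 1 x (5 + 1 + 1), ins (F t w) 1 x (4 + 1 + 1)].Pairwise (· < ·)
        rw [g, g, g, g]
        exact chain4 ⟨left_cmp hw (by norm_num) (by norm_num) (by decide),
          left_cmp hw (by norm_num) (by norm_num) (by decide),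
          left_cmp hw (by norm_num) (by norm_num) (by decide)⟩
    · refine hasSq_of 0 8 (by norm_num) (by omega) [0, 4, 5, 7, 6, 3, 1, 2] (by decide) ?_ ?_
      · show [ins (F t w) 1 x 0, ins (F t w) 1 x (2 + 1 + 1), ins (F t w) 1 x (3 + 1 + 1),
          ins (F t w) 1 x (5 + 1 + 1), ins (F t w) 1 x (4 + 1 + 1), ins (F t w) 1 x (1 + 1 + 1),
          ins (F t w) 1 x 1, ins (F t w) 1 x (0 + 1 + 1)].Pairwise (· < ·)
        rw [g0, g1, g, g, g, g, g, g]
        exact chain8 ⟨left_cmp hw (by norm_num) (by norm_num) (by decide),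
          left_cmp hw (by norm_num) (by norm_num) (by decide),
          left_cmp hw (by norm_num) (by norm_num) (by decide),
          left_cmp hw (by norm_num) (by norm_num) (by decide),
          left_cmp hw (by norm_num) (by norm_num) (by decide), h2, h1⟩
      · show [ins (F t w) 1 x (6 + 1 + 1), ins (F t w) 1 x (10 + 1 + 1),
          ins (F t w) 1 x (11 + 1 + 1), ins (F t w) 1 x (13 + 1 + 1),
          ins (F t w) 1 x (12 + 1 + 1), ins (F t w) 1 x (9 + 1 + 1),
          ins (F t w) 1 x (7 + 1 + 1), ins (F t w) 1 x (8 + 1 + 1)].Pairwise (· < ·)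
        rw [g, g, g, g, g, g, g, g]
        exact chain8 ⟨left_cmp hw (by norm_num) (by norm_num) (by decide),
          left_cmp hw (by norm_num) (by norm_num) (by decide),
          left_cmp hw (by norm_num) (by norm_num) (by decide),
          left_cmp hw (by norm_num) (by norm_num) (by decide),
          left_cmp hw (by norm_num) (by norm_num) (by decide),
          left_cmp hw (by norm_num) (by norm_num) (by decide),
          left_cmp hw (by norm_num) (by norm_num) (by decide)⟩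
  · refine hasSq_two 1 (by omega) (Or.inr ?_)
    show ins (F t w) 1 x (0 + 1 + 1) < ins (F t w) 1 x 1 ∧
      ins (F t w) 1 x (2 + 1 + 1) < ins (F t w) 1 x (1 + 1 + 1)
    rw [g1, g, g, g]
    exact ⟨h1, left_cmp hw (by norm_num) (by norm_num) (by decide)⟩

theorem hasSq_twoslot (hw : Good t w) (x : ℚ) (hx : ∀ j < 16 * t + 29, x ≠ F t w j) :
    HasSq (ins (F t w) 2 x) (16 * t + 30) := by
  have g0 : ins (F t w) 2 x 0 = F t w 0 := ins_lt _ _ (by omega)
  have g1 : ins (F t w) 2 x 1 = F t w 1 := ins_lt _ _ (by omega)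
  have g2 : ins (F t w) 2 x 2 = x := ins_eq _ _ _
  have g : ∀ j, ins (F t w) 2 x (j + 2 + 1) = F t w (j + 2) := fun j => ins_gt _ _ (by omega)
  rcases lt_or_gt_of_ne (hx 1 (by omega)) with h | h
  · refine hasSq_two 1 (by omega) (Or.inr ?_)
    show ins (F t w) 2 x 2 < ins (F t w) 2 x 1 ∧
      ins (F t w) 2 x (1 + 2 + 1) < ins (F t w) 2 x (0 + 2 + 1)
    rw [g1, g2, g, g]
    exact ⟨h, left_cmp hw (by norm_num) (by norm_num) (by decide)⟩
  · refine hasSq_of 0 8 (by norm_num) (by omega) [0, 4, 5, 7, 6, 3, 1, 2] (by decide) ?_ ?_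
    · show [ins (F t w) 2 x 0, ins (F t w) 2 x (1 + 2 + 1), ins (F t w) 2 x (2 + 2 + 1),
        ins (F t w) 2 x (4 + 2 + 1), ins (F t w) 2 x (3 + 2 + 1), ins (F t w) 2 x (0 + 2 + 1),
        ins (F t w) 2 x 1, ins (F t w) 2 x 2].Pairwise (· < ·)
      rw [g0, g1, g2, g, g, g, g, g]
      exact chain8 ⟨left_cmp hw (by norm_num) (by norm_num) (by decide),
        left_cmp hw (by norm_num) (by norm_num) (by decide),
        left_cmp hw (by norm_num) (by norm_num) (by decide),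
        left_cmp hw (by norm_num) (by norm_num) (by decide),
        left_cmp hw (by norm_num) (by norm_num) (by decide),
        left_cmp hw (by norm_num) (by norm_num) (by decide), h⟩
    · show [ins (F t w) 2 x (5 + 2 + 1), ins (F t w) 2 x (9 + 2 + 1),
        ins (F t w) 2 x (10 + 2 + 1), ins (F t w) 2 x (12 + 2 + 1),
        ins (F t w) 2 x (11 + 2 + 1), ins (F t w) 2 x (8 + 2 + 1),
        ins (F t w) 2 x (6 + 2 + 1), ins (F t w) 2 x (7 + 2 + 1)].Pairwise (· < ·)
      rw [g, g, g, g, g, g, g, g]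
      exact chain8 ⟨left_cmp hw (by norm_num) (by norm_num) (by decide),
        left_cmp hw (by norm_num) (by norm_num) (by decide),
        left_cmp hw (by norm_num) (by norm_num) (by decide),
        left_cmp hw (by norm_num) (by norm_num) (by decide),
        left_cmp hw (by norm_num) (by norm_num) (by decide),
        left_cmp hw (by norm_num) (by norm_num) (by decide),
        left_cmp hw (by norm_num) (by norm_num) (by decide)⟩

end Pool.Agent.X37.Ext
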